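import Pool.Agent.P8H60.LM.Stm
import Pool.Agent.R321.QA1

/-! Package TW of project LM (helper60): the characteristic function of prime polynomials with
complex coefficients. The argument is the one of `R321/QA1` and `Y743/CL/Fm`, twisted by a completely
multiplicative function of modulus one. -/

set_option autoImplicit false

open MeasureTheory Filter Topology Complex

namespace Pool.Agent.P8H67.LM

open Pool.Agent.Y743.CL (pr pr_apply pr_orth pr_pow_le SS SS_eq SS_le SS_lim VS Pr mem_Pr pr_supp)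
open Pool.Agent.Y41.SW (supp_mul supp_pow)
open Pool.Agent.P8H60.LM (GC VC)

noncomputable section

/-! ### twisted polynomials -/

/-- the polynomial with real coefficients `f` and weight `w` -/
def DW (w : ℕ → ℂ) (f : ℕ → ℝ) (X : ℕ) : ℂ := ∑ n ∈ Finset.Icc 1 X, (f n : ℂ) * w n

lemma DW_extend (w : ℕ → ℂ) (f : ℕ → ℝ) (X Y : ℕ) (hXY : X ≤ Y) (hf : ∀ n, X < n → f n = 0) :
    DW w f X = DW w f Y := by
  unfold DW
  apply Finset.sum_subset
  · exact Finset.Icc_subset_Icc_right hXY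
  · intro n hn hn'
    have : X < n := by
      simp only [Finset.mem_Icc, not_and, not_le] at hn hn'
      exact hn' hn.1
    rw [hf n this]; simp

lemma DW_mul {w : ℕ → ℂ} (hw : ∀ a b : ℕ, a ≠ 0 → b ≠ 0 → w (a * b) = w a * w b)
    (f g : ArithmeticFunction ℝ) (M N : ℕ) (hf : ∀ n, M < n → f n = 0)
    (hg : ∀ n, N < n → g n = 0) :
    DW w f M * DW w g N = DW w ⇑(f * g) (M * N) := by
  unfold DW
  rw [Finset.sum_mul_sum, ← Finset.sum_product']
  have hmap : ∀ x ∈ Finset.Icc 1 M ×ˢ Finset.Icc 1 N, x.1 * x.2 ∈ Finset.Icc 1 (M * N) := by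
    intro x hx
    simp only [Finset.mem_product, Finset.mem_Icc] at hx ⊢
    exact ⟨Nat.one_le_iff_ne_zero.mpr (by
      have h1 := hx.1.1; have h2 := hx.2.1
      positivity), Nat.mul_le_mul hx.1.2 hx.2.2⟩
  rw [← Finset.sum_fiberwise_of_maps_to hmap]
  apply Finset.sum_congr rfl
  intro r hr
  rw [Finset.mem_Icc] at hr
  rw [ArithmeticFunction.mul_apply]
  push_cast
  rw [Finset.sum_mul]
  apply Finset.sum_subset_zero_on_sdiff
  · intro x hx
    simp only [Finset.mem_filter, Finset.mem_product, Finset.mem_Icc] at hx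
    rw [Nat.mem_divisorsAntidiagonal]
    exact ⟨hx.2, by omega⟩
  · intro x hx
    simp only [Finset.mem_sdiff, Nat.mem_divisorsAntidiagonal, Finset.mem_filter, Finset.mem_product,
      Finset.mem_Icc] at hx
    obtain ⟨⟨h1, h2⟩, h3⟩ := hx
    have hx1 : 1 ≤ x.1 := by
      rcases Nat.eq_zero_or_pos x.1 with h | h
      · rw [h] at h1; omega
      · exact h
    have hx2 : 1 ≤ x.2 := by
      rcases Nat.eq_zero_or_pos x.2 with h | h
      · rw [h] at h1; omega
      · exact h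
    by_cases hM : M < x.1
    · rw [hf _ hM]; simp
    · by_cases hN : N < x.2
      · rw [hg _ hN]; simp
      · exfalso
        push Not at hM hN
        exact h3 ⟨⟨⟨hx1, hM⟩, ⟨hx2, hN⟩⟩, h1⟩
  · intro x hx
    simp only [Finset.mem_filter, Finset.mem_product, Finset.mem_Icc] at hx
    rw [← hx.2, hw _ _ (by omega) (by omega)]
    push_cast
    ring

lemma DW_pow {w : ℕ → ℂ} (hw : ∀ a b : ℕ, a ≠ 0 → b ≠ 0 → w (a * b) = w a * w b) (hw1 : w 1 = 1)
    (f : ArithmeticFunction ℝ) (X : ℕ) (hf : ∀ n, X < n → f n = 0) (k : ℕ) :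
    DW w f X ^ k = DW w ⇑(f ^ k) (X ^ k) := by
  induction k with
  | zero =>
    rw [pow_zero, pow_zero, pow_zero]
    unfold DW
    simp [hw1]
  | succ k ih =>
    rw [pow_succ, ih, DW_mul hw (f ^ k) f (X ^ k) X (supp_pow f X hf k) hf, pow_succ, pow_succ]

/-! ### the twist -/

/-- the direction of a coefficient -/
def uu (z : ℕ → ℂ) (p : ℕ) : ℂ := if z p = 0 then 1 else z p / (‖z p‖ : ℂ)

lemma uu_norm (z : ℕ → ℂ) (p : ℕ) : ‖uu z p‖ = 1 := by
  unfold uu
  split_ifs with h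
  · simp
  · rw [norm_div, Complex.norm_real, norm_norm, div_self (norm_ne_zero_iff.2 h)]

lemma uu_mul (z : ℕ → ℂ) (p : ℕ) : ((‖z p‖ : ℝ) : ℂ) * uu z p = z p := by
  unfold uu
  split_ifs with h
  · simp [h]
  · have : ((‖z p‖ : ℝ) : ℂ) ≠ 0 := by exact_mod_cast norm_ne_zero_iff.2 h
    field_simp

/-- the completely multiplicative twist -/
def chi (z : ℕ → ℂ) (n : ℕ) : ℂ := n.factorization.prod fun p k => uu z p ^ k

lemma chi_one (z : ℕ → ℂ) : chi z 1 = 1 := by simp [chi]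

lemma chi_mul (z : ℕ → ℂ) (a b : ℕ) (ha : a ≠ 0) (hb : b ≠ 0) :
    chi z (a * b) = chi z a * chi z b := by
  unfold chi
  rw [Nat.factorization_mul ha hb, Finsupp.prod_add_index']
  · intro p; exact pow_zero _
  · intro p m n; exact pow_add _ _ _

lemma chi_norm (z : ℕ → ℂ) (n : ℕ) : ‖chi z n‖ = 1 := by
  unfold chi Finsupp.prod
  rw [norm_prod]
  refine Finset.prod_eq_one fun p _ => ?_
  rw [norm_pow, uu_norm, one_pow]

lemma chi_conj (z : ℕ → ℂ) (n : ℕ) : chi z n * (starRingEnd ℂ) (chi z n) = 1 := by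
  rw [Complex.mul_conj, Complex.normSq_eq_norm_sq, chi_norm]
  simp

lemma chi_prime (z : ℕ → ℂ) {p : ℕ} (hp : p.Prime) : chi z p = uu z p := by
  unfold chi
  rw [hp.factorization, Finsupp.prod_single_index (h := fun p k => uu z p ^ k) (pow_zero _), pow_one]

/-- the weight -/
def ww (z : ℕ → ℂ) (t : ℝ) (n : ℕ) : ℂ := chi z n * (n : ℂ) ^ (-(t : ℂ) * I)

lemma ww_one (z : ℕ → ℂ) (t : ℝ) : ww z t 1 = 1 := by simp [ww, chi_one]

lemma ww_mul (z : ℕ → ℂ) (t : ℝ) (a b : ℕ) (ha : a ≠ 0) (hb : b ≠ 0) :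
    ww z t (a * b) = ww z t a * ww z t b := by
  unfold ww
  rw [chi_mul z a b ha hb, Nat.cast_mul, Complex.natCast_mul_natCast_cpow]
  ring

/-- the absolute values of the coefficients -/
def cc (z : ℕ → ℂ) (p : ℕ) : ℝ := ‖z p‖

lemma GC_eq (z : ℕ → ℂ) (X : ℕ) (t : ℝ) : GC z X t = DW (ww z t) (pr (cc z) X) X := by
  unfold GC DW
  rw [Finset.sum_filter]
  refine Finset.sum_congr rfl fun n hn => ?_
  rw [Finset.mem_Icc] at hn
  rw [pr_apply]
  by_cases hp : n.Prime
  · rw [if_pos hp, if_pos ⟨hp, hn.2⟩, ww, chi_prime z hp, ← mul_assoc, cc, uu_mul]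
  · rw [if_neg hp, if_neg (fun h => hp h.1)]
    simp

lemma GC_pow (z : ℕ → ℂ) (X : ℕ) (t : ℝ) (k N : ℕ) (hN : X ^ k ≤ N) :
    GC z X t ^ k = DW (ww z t) ⇑(pr (cc z) X ^ k) N := by
  rw [GC_eq, DW_pow (ww_mul z t) (ww_one z t) _ _ (pr_supp (cc z) X)]
  exact DW_extend _ _ _ _ hN (supp_pow _ _ (pr_supp (cc z) X) k)

lemma GC_cont (z : ℕ → ℂ) (X : ℕ) : Continuous (GC z X) := by
  unfold GC
  refine continuous_finsetSum _ fun n hn => ?_
  have hn0 : (n : ℂ) ≠ 0 := by
    exact_mod_cast (by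
      have := (Finset.mem_Icc.1 (Finset.mem_filter.1 hn).1).1
      omega : n ≠ 0)
  exact continuous_const.mul (Continuous.const_cpow (by fun_prop) (Or.inl hn0))

lemma VC_eq (z : ℕ → ℂ) (X : ℕ) : VC z X = VS (cc z) X := rfl

/-- the moments at one height -/
lemma mom_bd (z : ℕ → ℂ) (X : ℕ) (hX : 1 ≤ X) (T A B : ℝ) (hT : 1 ≤ T) (hAB : A ≤ B) (k l : ℕ)
    (hXT : ((X ^ (k + l) : ℕ) : ℝ) ≤ Real.sqrt T) :
    ‖(∫ t in A..B, GC z X t ^ k * (starRingEnd ℂ) (GC z X t) ^ l) -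
      ((B - A : ℝ) : ℂ) * (if k = l then (SS (cc z) X k : ℂ) else 0)‖ ≤
      8 * (Real.sqrt T * (1 + Real.log T)) *
        (Real.sqrt (k.factorial * VS (cc z) X ^ k) * Real.sqrt (l.factorial * VS (cc z) X ^ l)) := by
  set c := cc z with hc
  set N : ℕ := X ^ (k + l) with hNdef
  have hN1 : 1 ≤ N := Nat.one_le_pow _ _ hX
  have hkN : X ^ k ≤ N := Nat.pow_le_pow_right hX (by omega)
  have hlN : X ^ l ≤ N := Nat.pow_le_pow_right hX (by omega)
  have hint : ∀ t : ℝ, GC z X t ^ k * (starRingEnd ℂ) (GC z X t) ^ l =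
      (∑ n ∈ Finset.Icc 1 N, ((((pr c X ^ k) n : ℝ) : ℂ) * chi z n) * (n : ℂ) ^ (-(t : ℂ) * I)) *
      (starRingEnd ℂ) (∑ n ∈ Finset.Icc 1 N, ((((pr c X ^ l) n : ℝ) : ℂ) * chi z n) *
        (n : ℂ) ^ (-(t : ℂ) * I)) := by
    intro t
    rw [← map_pow, GC_pow z X t k N hkN, GC_pow z X t l N hlN]
    unfold DW ww
    simp only [mul_assoc]
    rfl
  have hMV := Pool.Agent.Y840.SW.t_MVB N A B hAB
    (fun n => (((pr c X ^ k) n : ℝ) : ℂ) * chi z n) (fun n => (((pr c X ^ l) n : ℝ) : ℂ) * chi z n)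
  simp only [← hint] at hMV
  have hdiag : ∀ n : ℕ, ((((pr c X ^ k) n : ℝ) : ℂ) * chi z n) *
      (starRingEnd ℂ) ((((pr c X ^ l) n : ℝ) : ℂ) * chi z n) =
      (((pr c X ^ k) n * (pr c X ^ l) n : ℝ) : ℂ) := by
    intro n
    rw [map_mul, Complex.conj_ofReal]
    push_cast
    calc _ = (((pr c X ^ k) n : ℝ) : ℂ) * (((pr c X ^ l) n : ℝ) : ℂ) *
        (chi z n * (starRingEnd ℂ) (chi z n)) := by ring
      _ = _ := by rw [chi_conj, mul_one]
  have hA : (∑ n ∈ Finset.Icc 1 N, ((((pr c X ^ k) n : ℝ) : ℂ) * chi z n) *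
      (starRingEnd ℂ) ((((pr c X ^ l) n : ℝ) : ℂ) * chi z n)) =
        (if k = l then (SS c X k : ℂ) else 0) := by
    simp only [hdiag]
    split_ifs with h
    · subst h
      rw [← SS_eq k N hkN]
      push_cast
      refine Finset.sum_congr rfl fun n _ => ?_
      rw [sq]
    · refine Finset.sum_eq_zero fun n _ => ?_
      rw [pr_orth h n, Complex.ofReal_zero]
  rw [hA] at hMV
  have hS : ∀ i : ℕ, X ^ i ≤ N → (∑ n ∈ Finset.Icc 1 N,
      ‖(((pr c X ^ i) n : ℝ) : ℂ) * chi z n‖ ^ 2) ≤ i.factorial * VS c X ^ i := by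
    intro i hi
    refine le_trans (le_of_eq ?_) (SS_le c X i)
    rw [← SS_eq i N hi]
    refine Finset.sum_congr rfl fun n _ => ?_
    rw [norm_mul, chi_norm, mul_one, Complex.norm_real, Real.norm_eq_abs, sq_abs]
  refine hMV.trans ?_
  have hlogN : Real.log N ≤ Real.log T := by
    apply Real.log_le_log (by exact_mod_cast hN1)
    refine hXT.trans ?_
    rw [Real.sqrt_le_left (by linarith)]
    nlinarith
  have hlogN0 : 0 ≤ Real.log N := Real.log_natCast_nonneg N
  have hlogT0 : 0 ≤ Real.log T := Real.log_nonneg hT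
  have hNb : (N:ℝ) * (1 + Real.log N) ≤ Real.sqrt T * (1 + Real.log T) := by
    apply mul_le_mul hXT (by linarith) (by linarith) (Real.sqrt_nonneg _)
  have h1 := Real.sqrt_le_sqrt (hS k hkN)
  have h2 := Real.sqrt_le_sqrt (hS l hlN)
  have h3 := mul_le_mul h1 h2 (Real.sqrt_nonneg _) (Real.sqrt_nonneg _)
  have h4 : 8 * (N : ℝ) * (1 + Real.log N) ≤ 8 * (Real.sqrt T * (1 + Real.log T)) := by
    have e : 8 * (N : ℝ) * (1 + Real.log N) = 8 * (N * (1 + Real.log N)) := by ring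
    rw [e]
    linarith
  exact mul_le_mul h4 h3 (by positivity) (by positivity)

/-- the moments along a sequence -/
theorem mom_lim (T A B : ℕ → ℝ) (X : ℕ → ℕ) (z : ℕ → ℕ → ℂ) {M : ℝ} (hM : ∀ j p, cc (z j) p ^ 2 ≤ M)
    (hT : Tendsto T atTop atTop) (hAB : ∀ j, A j ≤ B j)
    (hlen : Tendsto (fun j => (B j - A j) / T j) atTop (𝓝 1)) (hX1 : ∀ j, 1 ≤ X j)
    (hX : ∀ m : ℕ, ∀ᶠ j in atTop, ((X j ^ m : ℕ) : ℝ) ≤ Real.sqrt (T j))
    (hV : Tendsto (fun j => VS (cc (z j)) (X j)) atTop atTop) (k l : ℕ) :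
    Tendsto (fun j => (((1 / T j) * (1 / Real.sqrt (VS (cc (z j)) (X j)) ^ (k + l)) : ℝ) : ℂ) *
      ∫ t in (A j)..(B j), GC (z j) (X j) t ^ k * (starRingEnd ℂ) (GC (z j) (X j) t) ^ l) atTop
      (𝓝 (if k = l then (k.factorial : ℂ) else 0)) := by
  -- the main term
  have hmain : Tendsto (fun j =>
      (((1 / T j) * (1 / Real.sqrt (VS (cc (z j)) (X j)) ^ (k + l)) : ℝ) : ℂ) *
      (((B j - A j : ℝ) : ℂ) * (if k = l then (SS (cc (z j)) (X j) k : ℂ) else 0))) atTop
      (𝓝 (if k = l then (k.factorial : ℂ) else 0)) := by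
    by_cases h : k = l
    · subst h
      simp only [if_true]
      have h1 := (hlen.mul (SS_lim (fun j => cc (z j)) X hM hV k))
      rw [one_mul] at h1
      have h2 := (Complex.continuous_ofReal.tendsto _).comp h1
      have e : ((k.factorial : ℝ) : ℂ) = (k.factorial : ℂ) := by push_cast; rfl
      rw [e] at h2
      refine h2.congr' ?_
      filter_upwards [hV.eventually_gt_atTop 0, hT.eventually_gt_atTop 0] with j hj hTj
      simp only [Function.comp]
      have e1 : Real.sqrt (VS (cc (z j)) (X j)) ^ (k + k) = VS (cc (z j)) (X j) ^ k := by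
        rw [← two_mul, pow_mul, Real.sq_sqrt hj.le]
      rw [e1]
      push_cast
      have e2 : ((VS (cc (z j)) (X j) : ℝ) : ℂ) ≠ 0 := by exact_mod_cast hj.ne'
      have e3 : ((T j : ℝ) : ℂ) ≠ 0 := by exact_mod_cast hTj.ne'
      field_simp
    · simp only [if_neg h, mul_zero]
      exact tendsto_const_nhds
  have herr : Tendsto (fun j =>
      (((1 / T j) * (1 / Real.sqrt (VS (cc (z j)) (X j)) ^ (k + l)) : ℝ) : ℂ) *
      (∫ t in (A j)..(B j), GC (z j) (X j) t ^ k * (starRingEnd ℂ) (GC (z j) (X j) t) ^ l) -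
      (((1 / T j) * (1 / Real.sqrt (VS (cc (z j)) (X j)) ^ (k + l)) : ℝ) : ℂ) *
      (((B j - A j : ℝ) : ℂ) * (if k = l then (SS (cc (z j)) (X j) k : ℂ) else 0))) atTop (𝓝 0) := by
    have hb : Tendsto (fun j => 8 * (Real.sqrt k.factorial * Real.sqrt l.factorial) *
        (Real.sqrt (T j) * (1 + Real.log (T j)) / T j)) atTop (𝓝 0) := by
      have := (Pool.Agent.Y41.SW.err_tendsto.comp hT).const_mul
        (8 * (Real.sqrt k.factorial * Real.sqrt l.factorial))
      rwa [mul_zero] at this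
    refine squeeze_zero_norm' ?_ hb
    filter_upwards [hX (k + l), hV.eventually_gt_atTop 0, hT.eventually_ge_atTop 1] with j hXj hVj hTj
    have hT0 : 0 < T j := by linarith
    have h1 := mom_bd (z j) (X j) (hX1 j) (T j) (A j) (B j) hTj (hAB j) k l hXj
    set V := VS (cc (z j)) (X j) with hVd
    have hs : 0 < Real.sqrt V := Real.sqrt_pos.2 hVj
    rw [← mul_sub, norm_mul, Complex.norm_real, Real.norm_eq_abs, abs_of_pos (by positivity)]
    refine (mul_le_mul_of_nonneg_left h1 (by positivity)).trans (le_of_eq ?_)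
    have e1 : ∀ i : ℕ, Real.sqrt ((i.factorial : ℝ) * V ^ i) =
        Real.sqrt i.factorial * Real.sqrt V ^ i := by
      intro i
      rw [Real.sqrt_mul (by positivity)]
      congr 1
      rw [Real.sqrt_eq_iff_mul_self_eq (by positivity) (by positivity), ← pow_add, ← two_mul,
        pow_mul, Real.sq_sqrt hVj.le]
    rw [e1, e1, pow_add]
    field_simp
  have := herr.add hmain
  rw [zero_add] at this
  refine this.congr fun j => ?_
  ring

/-- the moments, with another normalisation -/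
theorem mom_lim2 (T A B : ℕ → ℝ) (X : ℕ → ℕ) (z : ℕ → ℕ → ℂ) (N : ℕ → ℝ) {M : ℝ}
    (hM : ∀ j p, cc (z j) p ^ 2 ≤ M)
    (hT : Tendsto T atTop atTop) (hAB : ∀ j, A j ≤ B j)
    (hlen : Tendsto (fun j => (B j - A j) / T j) atTop (𝓝 1)) (hX1 : ∀ j, 1 ≤ X j)
    (hX : ∀ m : ℕ, ∀ᶠ j in atTop, ((X j ^ m : ℕ) : ℝ) ≤ Real.sqrt (T j))
    (hV : Tendsto (fun j => VS (cc (z j)) (X j)) atTop atTop)
    (hN : Tendsto (fun j => Real.sqrt (VS (cc (z j)) (X j)) / N j) atTop (𝓝 1)) (k l : ℕ) :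
    Tendsto (fun j => (((1 / T j) * (1 / N j ^ (k + l)) : ℝ) : ℂ) *
      ∫ t in (A j)..(B j), GC (z j) (X j) t ^ k * (starRingEnd ℂ) (GC (z j) (X j) t) ^ l) atTop
      (𝓝 (if k = l then (k.factorial : ℂ) else 0)) := by
  have h1 := mom_lim T A B X z hM hT hAB hlen hX1 hX hV k l
  have h2 : Tendsto (fun j => (((Real.sqrt (VS (cc (z j)) (X j)) / N j) ^ (k + l) : ℝ) : ℂ)) atTop
      (𝓝 1) := by
    have := (Complex.continuous_ofReal.tendsto _).comp (hN.pow (k + l))
    rw [one_pow, Complex.ofReal_one] at this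
    exact this
  have h3 := h2.mul h1
  rw [one_mul] at h3
  refine h3.congr' ?_
  filter_upwards [hV.eventually_gt_atTop 0] with j hj
  have hs : ((Real.sqrt (VS (cc (z j)) (X j)) : ℝ) : ℂ) ≠ 0 := by
    exact_mod_cast (Real.sqrt_pos.2 hj).ne'
  rw [← mul_assoc]
  congr 1
  push_cast
  rw [div_pow, one_div (((Real.sqrt (VS (cc (z j)) (X j)) : ℝ) : ℂ) ^ (k + l))]
  field_simp

/-- **the characteristic function of prime polynomials with complex coefficients** -/
theorem t_TW : Pool.Agent.P8H60.LM.S_TW := by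
  intro T A B X z N M hM hT hT0 hAB hlen hX1 hX hV hN s
  simp only [VC_eq] at hV hN
  have hM' : ∀ j p, cc (z j) p ^ 2 ≤ M := hM
  set μ : ℕ → Measure ℝ := fun j =>
    ENNReal.ofReal (1 / T j) • volume.restrict (Set.Ioc (A j) (B j)) with hμ
  set f : ℕ → ℝ → ℂ := fun j t => GC (z j) (X j) t / (N j : ℂ) with hf
  have hfc : ∀ j, Continuous (f j) := fun j => by
    simp only [hf]
    exact (GC_cont _ _).div_const _
  have hfin : ∀ j, IsFiniteMeasure (μ j) := fun j => by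
    simp only [hμ]
    refine ⟨?_⟩
    rw [Measure.smul_apply, smul_eq_mul, Measure.restrict_apply_univ, Real.volume_Ioc]
    exact ENNReal.mul_lt_top ENNReal.ofReal_lt_top ENNReal.ofReal_lt_top
  have hint : ∀ (j : ℕ) (g : ℝ → ℂ),
      ∫ x, g x ∂(μ j) = ((1 / T j : ℝ) : ℂ) * ∫ t in (A j)..(B j), g t := by
    intro j g
    simp only [hμ]
    rw [integral_smul_measure, ENNReal.toReal_ofReal (by have := hT0 j; positivity),
      intervalIntegral.integral_of_le (hAB j)]
    simp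
  have hHy : Pool.Agent.Y586.SW.Hy μ f 1 := by
    refine ⟨zero_le_one, hfin, fun j => (hfc j).measurable, fun j k => ?_, fun k l => ?_⟩
    · have h1 : IntegrableOn (fun x => ‖f j x‖ ^ k) (Set.Ioc (A j) (B j)) volume :=
        (((hfc j).norm.pow k).integrableOn_Icc).mono_set Set.Ioc_subset_Icc_self
      simp only [hμ]
      exact h1.smul_measure ENNReal.ofReal_ne_top
    · have h1 := mom_lim2 T A B X z N hM' hT hAB hlen hX1 hX hV hN k l
      have e : (if k = l then (k.factorial : ℂ) else 0) =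
          (if k = l then (k.factorial : ℂ) * ((1 : ℝ) : ℂ) else 0) := by simp
      rw [e] at h1
      refine h1.congr fun j => ?_
      rw [hint]
      have e2 : ∀ t, f j t ^ k * (starRingEnd ℂ) (f j t) ^ l =
          ((1 / N j ^ (k + l) : ℝ) : ℂ) *
          (GC (z j) (X j) t ^ k * (starRingEnd ℂ) (GC (z j) (X j) t) ^ l) := by
        intro t
        simp only [hf]
        rw [map_div₀, Complex.conj_ofReal, div_pow, div_pow, pow_add]
        push_cast
        ring
      simp only [e2]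
      rw [intervalIntegral.integral_const_mul]
      push_cast
      ring
  have h := Pool.Agent.Y586.SW.char_lim hHy s
  rw [Complex.ofReal_one, one_mul] at h
  refine h.congr fun j => ?_
  rw [hint]
  rfl

end

end Pool.Agent.P8H67.LM
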